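import Pool.Agent.Helper99.RS.Final

/-!
# Uniqueness of the critical catenoid among surfaces of index four with a rotation symmetry

Let `S = surf F` be an embedded connected free boundary minimal surface in the closed unit ball of `ℝ³`, given as a level set
`{F = 0}` of a smooth function whose gradient has length one near `S`, not flat, of Morse index at most four. If `F` is invariant
under the rotation by the angle `2 π / n` about an axis, `n ≥ 3`, then `S` is the critical catenoid about this axis.
-/

set_option autoImplicit false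

open Pool.Agent.Helper78.FB
open scoped ContDiff

namespace Pool.Agent.Results.MP_25f86f_gt.CriticalCatenoid

theorem result (F : E → ℝ) (hF : FBMS F) (hconn : IsPreconnected (inn F)) (hflat : ∃ y ∈ surf F, normA F y ≠ 0)
    (hindex : IndexLeFour F) (n : ℕ) (hn : 3 ≤ n)
    (hrot : ∀ y : E, F !₂[Real.cos (2 * Real.pi / n) * y 0 - Real.sin (2 * Real.pi / n) * y 1,
      Real.sin (2 * Real.pi / n) * y 0 + Real.cos (2 * Real.pi / n) * y 1, y 2] = F y) :
    ∃ s : ℝ, 0 < s ∧ s * Real.tanh s = 1 ∧ surf F =
      {y : E | ∃ σ θ : ℝ, |σ| ≤ s ∧ y = !₂[1 / (s * Real.cosh s) * (Real.cosh σ * Real.cos θ),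
        1 / (s * Real.cosh s) * (Real.cosh σ * Real.sin θ), 1 / (s * Real.cosh s) * σ]} :=
  Pool.Agent.Helper23.RS.end_cat hF hconn hflat
    (Pool.Agent.Helper99.RS.rev_main3 hF hconn hflat hindex hn hrot)

end Pool.Agent.Results.MP_25f86f_gt.CriticalCatenoid
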