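import Pool.Agent.Helper94.FS.Star

/-!
# Free boundary minimal surfaces of Morse index at most four are star-shaped

Let `S = surf F` be an embedded, two-sided, connected free boundary minimal surface in the closed unit ball of `ℝ³`, given as a level
set `{F = 0}` of a smooth function whose gradient has length one near `S`. Suppose that `S` is not flat and has Morse index at most
four. Then the support function of `S` does not vanish in the interior, `S` does not contain the origin, and the radial projection
embeds `S` in the unit sphere. So `S` has genus zero. No symmetry is assumed, and nothing on the genus or the boundary.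
-/

set_option autoImplicit false

open Pool.Agent.Helper78.FB

namespace Pool.Agent.Results.MP_25f86f_gt.StarShaped

theorem result (F : E → ℝ) (hF : FBMS F) (hconn : IsPreconnected (inn F)) (hflat : ∃ y ∈ surf F, normA F y ≠ 0)
    (hindex : IndexLeFour F) :
    (∀ y ∈ inn F, ∑ i, y i * pd i F y ≠ 0) ∧ (∀ y ∈ surf F, y ≠ 0) ∧
      Topology.IsClosedEmbedding (fun y : surf F => ‖(y : E)‖⁻¹ • (y : E)) := by
  refine ⟨fun y hy => ?_, fun y hy => ne_zero_of_index hF hconn hflat hindex hy,
    embedding_of_index hF hconn hflat hindex⟩
  rcases exists_sign hF hconn hflat hindex with h | h
  · exact (h y hy).ne'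
  · exact (h y hy).ne

end Pool.Agent.Results.MP_25f86f_gt.StarShaped
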