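import Pool.Agent.Helper94.FB.Core

/-!
# Free boundary minimal surfaces of Morse index at most four with three reflection symmetries

Let `S = surf F` be an embedded, two-sided, connected free boundary minimal surface in the closed unit ball of `ℝ³`, given as a level
set `{F = 0}` of a smooth function whose gradient has length one near `S`. Suppose that `S` is invariant under the reflections in the
three coordinate planes (`F` is even in each coordinate), is not flat and has Morse index at most four. Then `S` is homeomorphic to a
closed annulus. Nothing is assumed on the genus or on the number of boundary components.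
-/

set_option autoImplicit false

open Pool.Agent.Helper78.FB

namespace Pool.Agent.Results.MP_25f86f_gt.SymmetricAnnulus

theorem result (F : E → ℝ) (hF : FBMS F) (heven : ∀ (l : Fin 3) (y : E), F (refl l y) = F y)
    (hconn : IsPreconnected (inn F)) (hflat : ∃ y ∈ surf F, normA F y ≠ 0) (hindex : IndexLeFour F) :
    Nonempty (surf F ≃ₜ Circle × Set.Icc (-1 : ℝ) 1) :=
  (core ⟨hF, fun l y => by rw [one_mul]; exact heven l y, hconn, hflat, hindex⟩).1

end Pool.Agent.Results.MP_25f86f_gt.SymmetricAnnulus
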