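import Pool.Agent.Helper99.TS.Main

/-!
# Free boundary minimal surfaces with tetrahedral rotation symmetry have Morse index at least seven

Let `S = surf F` be an embedded, two-sided free boundary minimal surface in the closed unit ball of `ℝ³`, given as a level set
`{F = 0}` of a smooth function whose gradient has length one near `S`. Suppose that `F` is invariant under the rotation
`(y₀, y₁, y₂) ↦ (y₁, y₂, y₀)` and the half-turn `(y₀, y₁, y₂) ↦ (y₀, -y₁, -y₂)` (they generate the rotation group of the regular
tetrahedron, which is contained in every irreducible subgroup of `O(3)`), and that `S` is not flat. Then the second variation of area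
is negative definite on a space of dimension seven. No reflection, and nothing on the genus or the boundary is assumed.
-/

set_option autoImplicit false

open Pool.Agent.Helper78.FB
open scoped ContDiff

namespace Pool.Agent.Results.MP_25f86f_gt.TetrahedralIndex

theorem result (F : E → ℝ) (hF : FBMS F) (hflat : ∃ y ∈ surf F, normA F y ≠ 0)
    (hcyc : ∀ y : E, F !₂[y 1, y 2, y 0] = F y) (hturn : ∀ y : E, F !₂[y 0, -y 1, -y 2] = F y) :
    ∃ f : Fin 7 → E → ℝ, (∀ i, ContDiff ℝ ∞ (f i)) ∧
      ∀ c : Fin 7 → ℝ, c ≠ 0 → Q F (fun y => ∑ i, c i * f i y) (fun y => ∑ i, c i * f i y) < 0 :=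
  ⟨Pool.Agent.Helper99.TS.fam F, Pool.Agent.Helper99.TS.contDiff_fam hF,
    Pool.Agent.Helper99.TS.seven hF (Pool.Agent.Helper99.TS.tet_of hcyc hturn) hflat⟩

end Pool.Agent.Results.MP_25f86f_gt.TetrahedralIndex
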